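import Mathlib

set_option autoImplicit false

open Set Filter Topology
open scoped RealInnerProductSpace

namespace Pool.Agent.Results.MP_e5975b_an.DisconnectedSolutionSets

/-- Euclidean space of dimension `n`. -/
abbrev E (n : ℕ) := EuclideanSpace ℝ (Fin n)

/-- The Pareto solution set: `x ∈ K` with `F(x)(x-y) ∉ ℝ^m_+ \ {0}` for all `y ∈ K`. -/
def Sol {n m : ℕ} (F : Fin m → E n → E n) (K : Set (E n)) : Set (E n) :=
  {x | x ∈ K ∧ ∀ y ∈ K, ¬ ((∀ l, 0 ≤ ⟪F l x, x - y⟫) ∧ ∃ l, ⟪F l x, x - y⟫ ≠ 0)}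

/-- The weak Pareto solution set: `x ∈ K` with `F(x)(x-y) ∉ int ℝ^m_+` for all `y ∈ K`. -/
def SolW {n m : ℕ} (F : Fin m → E n → E n) (K : Set (E n)) : Set (E n) :=
  {x | x ∈ K ∧ ∀ y ∈ K, ¬ ∀ l, 0 < ⟪F l x, x - y⟫}

/-- The proper Pareto solution set: the union over the positive weights `ξ` of sum one of the
solution sets of the variational inequality of `∑ ξ_l F_l` on `K`. -/
def SolPr {n m : ℕ} (F : Fin m → E n → E n) (K : Set (E n)) : Set (E n) :=
  {x | ∃ ξ : Fin m → ℝ, (∀ l, 0 < ξ l) ∧ ∑ l, ξ l = 1 ∧ x ∈ K ∧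
    ∀ y ∈ K, 0 ≤ ⟪∑ l, ξ l • F l x, y - x⟫}

/-- Monotonicity of every `F_l` on `K`. -/
def MonotoneProblem {n m : ℕ} (F : Fin m → E n → E n) (K : Set (E n)) : Prop :=
  ∀ l, ∀ x ∈ K, ∀ y ∈ K, 0 ≤ ⟪F l y - F l x, y - x⟫

/-- Symmetry: every `F_l` is differentiable on an open set containing `K`, with symmetric
Jacobian at the points of `K`. -/
def SymmetricProblem {n m : ℕ} (F : Fin m → E n → E n) (K : Set (E n)) : Prop :=
  ∀ l, ∃ U : Set (E n), IsOpen U ∧ K ⊆ U ∧ DifferentiableOn ℝ (F l) U ∧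
    ∀ x ∈ K, ∀ i j : Fin n, (fderiv ℝ (F l) x (EuclideanSpace.single j 1)) i =
      (fderiv ℝ (F l) x (EuclideanSpace.single i 1)) j

/-! ### The example -/

/-- the closed half plane -/
def KK : Set (E 2) := {x | 0 ≤ x 0}

noncomputable def cc : Fin 2 → ℝ := ![-1, 7]

noncomputable def FF (l : Fin 2) (x : E 2) : E 2 :=
  WithLp.toLp 2 ![-(Real.exp (-x 0) * (1 - Real.cos (x 1))),
    x 1 - cc l + Real.exp (-x 0) * Real.sin (x 1)]

lemma FF0 (l : Fin 2) (x : E 2) : FF l x 0 = -(Real.exp (-x 0) * (1 - Real.cos (x 1))) := rfl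
lemma FF1 (l : Fin 2) (x : E 2) : FF l x 1 = x 1 - cc l + Real.exp (-x 0) * Real.sin (x 1) := rfl

lemma inner2 (a b : E 2) : ⟪a, b⟫ = a 0 * b 0 + a 1 * b 1 := by
  rw [PiLp.inner_apply, Fin.sum_univ_two]
  simp [mul_comm]

lemma deriv_comp0 (l : Fin 2) (x : E 2) : HasFDerivAt (fun z : E 2 => FF l z 0)
    ((Real.exp (-x 0) * (1 - Real.cos (x 1))) • (EuclideanSpace.proj (𝕜 := ℝ) (0 : Fin 2) : E 2 →L[ℝ] ℝ)
      - (Real.exp (-x 0) * Real.sin (x 1)) • (EuclideanSpace.proj (𝕜 := ℝ) (1 : Fin 2) : E 2 →L[ℝ] ℝ)) x := by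
  have h0 : HasFDerivAt (fun z : E 2 => z 0) (EuclideanSpace.proj (𝕜 := ℝ) (0 : Fin 2) : E 2 →L[ℝ] ℝ) x :=
    (EuclideanSpace.proj (𝕜 := ℝ) (0 : Fin 2) : E 2 →L[ℝ] ℝ).hasFDerivAt
  have h1 : HasFDerivAt (fun z : E 2 => z 1) (EuclideanSpace.proj (𝕜 := ℝ) (1 : Fin 2) : E 2 →L[ℝ] ℝ) x :=
    (EuclideanSpace.proj (𝕜 := ℝ) (1 : Fin 2) : E 2 →L[ℝ] ℝ).hasFDerivAt
  have he := (h0.neg).exp
  have hc := (h1.cos).const_sub 1
  have h := (he.mul hc).neg
  refine h.congr_fderiv ?_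
  ext v
  simp
  ring

lemma deriv_comp1 (l : Fin 2) (x : E 2) : HasFDerivAt (fun z : E 2 => FF l z 1)
    (-(Real.exp (-x 0) * Real.sin (x 1)) • (EuclideanSpace.proj (𝕜 := ℝ) (0 : Fin 2) : E 2 →L[ℝ] ℝ)
      + (1 + Real.exp (-x 0) * Real.cos (x 1)) • (EuclideanSpace.proj (𝕜 := ℝ) (1 : Fin 2) : E 2 →L[ℝ] ℝ)) x := by
  have h0 : HasFDerivAt (fun z : E 2 => z 0) (EuclideanSpace.proj (𝕜 := ℝ) (0 : Fin 2) : E 2 →L[ℝ] ℝ) x :=
    (EuclideanSpace.proj (𝕜 := ℝ) (0 : Fin 2) : E 2 →L[ℝ] ℝ).hasFDerivAt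
  have h1 : HasFDerivAt (fun z : E 2 => z 1) (EuclideanSpace.proj (𝕜 := ℝ) (1 : Fin 2) : E 2 →L[ℝ] ℝ) x :=
    (EuclideanSpace.proj (𝕜 := ℝ) (1 : Fin 2) : E 2 →L[ℝ] ℝ).hasFDerivAt
  have he := (h0.neg).exp
  have hc := h1.sin
  have h := (h1.sub_const (cc l)).add (he.mul hc)
  refine h.congr_fderiv ?_
  ext v
  simp
  ring

lemma diffFF (l : Fin 2) : Differentiable ℝ (FF l) := by
  rw [differentiable_euclidean]
  intro i
  fin_cases i
  · exact fun x => (deriv_comp0 l x).differentiableAt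
  · exact fun x => (deriv_comp1 l x).differentiableAt

lemma symmFF : SymmetricProblem FF KK := by
  intro l
  refine ⟨univ, isOpen_univ, subset_univ _, (diffFF l).differentiableOn, fun x _ => ?_⟩
  have h := ((diffFF l) x).hasFDerivAt
  have hh : ∀ i : Fin 2, HasFDerivAt (fun z : E 2 => FF l z i)
      ((EuclideanSpace.proj (𝕜 := ℝ) i : E 2 →L[ℝ] ℝ).comp (fderiv ℝ (FF l) x)) x := fun i =>
    (EuclideanSpace.proj (𝕜 := ℝ) i : E 2 →L[ℝ] ℝ).hasFDerivAt.comp x h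
  have e0 := (hh 0).unique (deriv_comp0 l x)
  have e1 := (hh 1).unique (deriv_comp1 l x)
  have f0 : ∀ v, (fderiv ℝ (FF l) x v) 0 = _ := fun v => congrArg (fun T : E 2 →L[ℝ] ℝ => T v) e0
  have f1 : ∀ v, (fderiv ℝ (FF l) x v) 1 = _ := fun v => congrArg (fun T : E 2 →L[ℝ] ℝ => T v) e1
  intro i j
  fin_cases i <;> fin_cases j <;> simp [f0, f1]

lemma quad_nonneg {a c s u v : ℝ} (ha0 : 0 ≤ a) (ha1 : a ≤ 1) (hcs : s ^ 2 = (1 - c) * (1 + c))
    (hc1 : c ≤ 1) : 0 ≤ a * (1 - c) * u ^ 2 - 2 * a * s * u * v + (1 + a * c) * v ^ 2 := by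
  have h1 : 0 ≤ (1 - c) * u ^ 2 - 2 * s * u * v + (1 + c) * v ^ 2 := by
    rcases eq_or_lt_of_le hc1 with h | h
    · have hs : s = 0 := by
        have : s ^ 2 = 0 := by rw [hcs, h]; ring
        exact pow_eq_zero_iff (two_ne_zero) |>.1 this
      rw [h, hs]; nlinarith [sq_nonneg v]
    · have h2 : 0 < 1 - c := by linarith
      have h3 : (1 - c) * ((1 - c) * u ^ 2 - 2 * s * u * v + (1 + c) * v ^ 2) =
          ((1 - c) * u - s * v) ^ 2 := by
        have : ((1 - c) * u - s * v) ^ 2 = (1 - c) ^ 2 * u ^ 2 - 2 * (1 - c) * s * u * v + s ^ 2 * v ^ 2 := by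
          ring
        rw [this, hcs]; ring
      by_contra hcon
      push Not at hcon
      have := mul_neg_of_pos_of_neg h2 hcon
      rw [h3] at this
      exact absurd this (not_lt.2 (sq_nonneg _))
  nlinarith [mul_nonneg ha0 h1, mul_nonneg (sub_nonneg.2 ha1) (sq_nonneg v)]

lemma monoFF : MonotoneProblem FF KK := by
  intro l x hx y hy
  set u : ℝ := y 0 - x 0 with hu
  set v : ℝ := y 1 - x 1 with hv
  set φ : ℝ → ℝ := fun t => -(Real.exp (-(x 0 + t * u)) * (1 - Real.cos (x 1 + t * v))) * u +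
    (x 1 + t * v - cc l + Real.exp (-(x 0 + t * u)) * Real.sin (x 1 + t * v)) * v with hφ
  have hder : ∀ t, HasDerivAt φ (Real.exp (-(x 0 + t * u)) * (1 - Real.cos (x 1 + t * v)) * u ^ 2
      - 2 * Real.exp (-(x 0 + t * u)) * Real.sin (x 1 + t * v) * u * v
      + (1 + Real.exp (-(x 0 + t * u)) * Real.cos (x 1 + t * v)) * v ^ 2) t := by
    intro t
    have a0 : HasDerivAt (fun t : ℝ => x 0 + t * u) u t := by
      simpa using ((hasDerivAt_id t).mul_const u).const_add (x 0)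
    have a1 : HasDerivAt (fun t : ℝ => x 1 + t * v) v t := by
      simpa using ((hasDerivAt_id t).mul_const v).const_add (x 1)
    have he := (a0.neg).exp
    have hc := (a1.cos).const_sub 1
    have hs := a1.sin
    have h := (((he.mul hc).neg).mul_const u).add (((a1.sub_const (cc l)).add (he.mul hs)).mul_const v)
    refine h.congr_deriv ?_
    simp only [Pi.neg_apply]
    ring
  have hmono : MonotoneOn φ (Icc 0 1) := by
    apply monotoneOn_of_deriv_nonneg (convex_Icc 0 1)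
    · exact fun t _ => (hder t).continuousAt.continuousWithinAt
    · exact fun t _ => (hder t).differentiableAt.differentiableWithinAt
    · intro t ht
      rw [interior_Icc] at ht
      rw [(hder t).deriv]
      have hs0 : 0 ≤ x 0 + t * u := by
        have h1 : x 0 + t * u = (1 - t) * x 0 + t * y 0 := by rw [hu]; ring
        rw [h1]
        have hx' : 0 ≤ x 0 := hx
        have hy' : 0 ≤ y 0 := hy
        have := ht.1
        have := ht.2
        have : 0 ≤ (1 - t) * x 0 := mul_nonneg (by linarith) hx'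
        have : 0 ≤ t * y 0 := mul_nonneg (by linarith) hy'
        linarith
      apply quad_nonneg (Real.exp_pos _).le
      · rw [Real.exp_le_one_iff]; linarith
      · have := Real.sin_sq_add_cos_sq (x 1 + t * v)
        linarith
      · exact Real.cos_le_one _
  have h01 := hmono (left_mem_Icc.2 zero_le_one) (right_mem_Icc.2 zero_le_one) zero_le_one
  have e0 : φ 0 = FF l x 0 * u + FF l x 1 * v := by
    rw [FF0, FF1]; simp [hφ]
  have e1 : φ 1 = FF l y 0 * u + FF l y 1 * v := by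
    have a0 : x 0 + 1 * u = y 0 := by rw [hu]; ring
    have a1 : x 1 + 1 * v = y 1 := by rw [hv]; ring
    rw [FF0, FF1, hφ]
    simp only [a0, a1]
  rw [inner2]
  have : (FF l y - FF l x) 0 * (y - x) 0 + (FF l y - FF l x) 1 * (y - x) 1 =
      (FF l y 0 * u + FF l y 1 * v) - (FF l x 0 * u + FF l x 1 * v) := by
    simp only [PiLp.sub_apply, hu, hv]; ring
  rw [this, ← e0, ← e1]
  linarith

lemma pr_subset {n m : ℕ} (F : Fin m → E n → E n) (K : Set (E n)) : SolPr F K ⊆ Sol F K := by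
  rintro x ⟨ξ, hξ, _, hx, h⟩
  refine ⟨hx, fun y hy hcon => ?_⟩
  have h1 := h y hy
  rw [sum_inner] at h1
  simp_rw [inner_smul_left] at h1
  have h2 : ∀ l, ⟪F l x, y - x⟫ = -⟪F l x, x - y⟫ := by
    intro l
    rw [← inner_neg_right, neg_sub]
  obtain ⟨l, hl⟩ := hcon.2
  have h3 : ∑ l, ξ l * ⟪F l x, x - y⟫ ≤ 0 := by
    have : ∑ l, ξ l * ⟪F l x, x - y⟫ = - ∑ l, ξ l * ⟪F l x, y - x⟫ := by
      rw [← Finset.sum_neg_distrib]
      refine Finset.sum_congr rfl fun l _ => ?_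
      rw [h2]; ring
    rw [this]
    have : 0 ≤ ∑ l, ξ l * ⟪F l x, y - x⟫ := by simpa using h1
    linarith
  have h4 : 0 < ∑ l, ξ l * ⟪F l x, x - y⟫ :=
    Finset.sum_pos' (fun i _ => mul_nonneg (hξ i).le (hcon.1 i))
      ⟨l, Finset.mem_univ l, mul_pos (hξ l) (lt_of_le_of_ne (hcon.1 l) (Ne.symm hl))⟩
  linarith

lemma sol_subset {n m : ℕ} (hm : 0 < m) (F : Fin m → E n → E n) (K : Set (E n)) :
    Sol F K ⊆ SolW F K := by
  rintro x ⟨hx, h⟩
  exact ⟨hx, fun y hy hcon => h y hy ⟨fun l => (hcon l).le, ⟨⟨0, hm⟩, (hcon _).ne'⟩⟩⟩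

lemma mem_pr_zero : (WithLp.toLp 2 ![0, 0] : E 2) ∈ SolPr FF KK := by
  refine ⟨![7/8, 1/8], ?_, ?_, ?_, ?_⟩
  · intro l; fin_cases l <;> norm_num
  · rw [Fin.sum_univ_two]; norm_num
  · show (0:ℝ) ≤ 0
    exact le_rfl
  · intro y _
    have : ∑ l, (![7/8, 1/8] : Fin 2 → ℝ) l • FF l (WithLp.toLp 2 ![0, 0] : E 2) = 0 := by
      rw [Fin.sum_univ_two]
      ext i
      fin_cases i
      · simp [FF0]
      · simp [FF1, cc]; norm_num
    rw [this, inner_zero_left]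

lemma mem_pr_two_pi : (WithLp.toLp 2 ![0, 2 * Real.pi] : E 2) ∈ SolPr FF KK := by
  refine ⟨![(7 - 2 * Real.pi)/8, (1 + 2 * Real.pi)/8], ?_, ?_, ?_, ?_⟩
  · have h1 := Real.pi_lt_d2
    have h2 := Real.pi_pos
    intro l; fin_cases l
    · show 0 < (7 - 2 * Real.pi)/8
      linarith
    · show 0 < (1 + 2 * Real.pi)/8
      linarith
  · rw [Fin.sum_univ_two]
    show (7 - 2 * Real.pi)/8 + (1 + 2 * Real.pi)/8 = 1
    ring
  · show (0:ℝ) ≤ 0
    exact le_rfl
  · intro y _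
    have : ∑ l, (![(7 - 2 * Real.pi)/8, (1 + 2 * Real.pi)/8] : Fin 2 → ℝ) l •
        FF l (WithLp.toLp 2 ![0, 2 * Real.pi] : E 2) = 0 := by
      rw [Fin.sum_univ_two]
      ext i
      fin_cases i
      · simp [FF0]
      · simp [FF1, cc]; ring
    rw [this, inner_zero_left]

lemma solW_sub {x : E 2} (hx : x ∈ SolW FF KK) : x 1 = 0 ∨ x 1 = 2 * Real.pi := by
  obtain ⟨hK, h⟩ := hx
  have hK' : 0 ≤ x 0 := hK
  have hpi := Real.pi_gt_d2
  by_cases hc : Real.cos (x 1) = 1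
  · rw [Real.cos_eq_one_iff] at hc
    obtain ⟨k, hk⟩ := hc
    have hs : Real.sin (x 1) = 0 := by
      rw [← hk]
      have := Real.sin_int_mul_pi (2 * k)
      push_cast at this
      rw [← this]; ring_nf
    have hcos : Real.cos (x 1) = 1 := by rw [Real.cos_eq_one_iff]; exact ⟨k, hk⟩
    rcases lt_trichotomy k 0 with hk0 | hk0 | hk0
    · exfalso
      have hk1 : (k:ℝ) ≤ -1 := by exact_mod_cast (by omega : k ≤ -1)
      have hneg : x 1 < -1 := by rw [← hk]; nlinarith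
      refine h (WithLp.toLp 2 ![x 0, x 1 + 1]) hK ?_
      intro l
      rw [inner2, FF0, FF1, hs, hcos]
      fin_cases l
      · simp [cc]; linarith
      · simp [cc]; linarith
    · left; rw [← hk, hk0]; simp
    · by_cases hk2 : k = 1
      · right; rw [← hk, hk2]; simp
      · exfalso
        have hk1 : (2:ℝ) ≤ k := by exact_mod_cast (by omega : 2 ≤ k)
        have hpos : 7 < x 1 := by rw [← hk]; nlinarith
        refine h (WithLp.toLp 2 ![x 0, x 1 - 1]) hK ?_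
        intro l
        rw [inner2, FF0, FF1, hs, hcos]
        fin_cases l
        · simp [cc]; linarith
        · simp [cc]; linarith
  · exfalso
    have hlt : Real.cos (x 1) < 1 := lt_of_le_of_ne (Real.cos_le_one _) hc
    refine h (WithLp.toLp 2 ![x 0 + 1, x 1]) (by show 0 ≤ x 0 + 1; linarith) ?_
    intro l
    rw [inner2, FF0, FF1]
    have hp : 0 < Real.exp (-x 0) * (1 - Real.cos (x 1)) :=
      mul_pos (Real.exp_pos _) (by linarith)
    have e0 : (x - (WithLp.toLp 2 ![x 0 + 1, x 1] : E 2)) 0 = -1 := by simp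
    have e1 : (x - (WithLp.toLp 2 ![x 0 + 1, x 1] : E 2)) 1 = 0 := by simp
    rw [e0, e1]
    linarith

lemma not_preconnected {S : Set (E 2)} (h1 : SolPr FF KK ⊆ S) (h2 : S ⊆ SolW FF KK) :
    ¬ IsPreconnected S := by
  intro hS
  have hc : ContinuousOn (fun x : E 2 => x 1) S := by fun_prop
  have hI := hS.image _ hc
  have ho := hI.ordConnected
  have m0 : (0:ℝ) ∈ (fun x : E 2 => x 1) '' S := ⟨_, h1 mem_pr_zero, rfl⟩
  have m1 : (2 * Real.pi) ∈ (fun x : E 2 => x 1) '' S := ⟨_, h1 mem_pr_two_pi, rfl⟩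
  have hp := Real.pi_pos
  have := ho.out m0 m1 ⟨hp.le, by linarith⟩
  obtain ⟨x, hx, hxe⟩ := this
  have hxe' : x 1 = Real.pi := hxe
  rcases solW_sub (h2 hx) with h | h <;> linarith

/-- There is a symmetric monotone vector variational inequality (with `n = m = 2` and `K` a closed
half plane) whose weak Pareto, Pareto and proper Pareto solution sets are all nonempty and
disconnected. -/
theorem result : ∃ (n m : ℕ) (K : Set (E n)) (F : Fin m → E n → E n),
    1 ≤ n ∧ 1 ≤ m ∧ K.Nonempty ∧ IsClosed K ∧ Convex ℝ K ∧ (∀ l, ContinuousOn (F l) K) ∧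
    MonotoneProblem F K ∧ SymmetricProblem F K ∧
    ((SolW F K).Nonempty ∧ ¬ IsPreconnected (SolW F K)) ∧
    ((Sol F K).Nonempty ∧ ¬ IsPreconnected (Sol F K)) ∧
    ((SolPr F K).Nonempty ∧ ¬ IsPreconnected (SolPr F K)) := by
  have hsub1 := pr_subset FF KK
  have hsub2 := sol_subset (by norm_num) FF KK
  refine ⟨2, 2, KK, FF, by norm_num, by norm_num, ⟨WithLp.toLp 2 ![0, 0], le_refl (0:ℝ)⟩, ?_, ?_,
    fun l => (diffFF l).continuous.continuousOn, monoFF, symmFF, ⟨⟨_, hsub2 (hsub1 mem_pr_zero)⟩,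
      not_preconnected (hsub1.trans hsub2) subset_rfl⟩,
    ⟨⟨_, hsub1 mem_pr_zero⟩, not_preconnected hsub1 hsub2⟩,
    ⟨⟨_, mem_pr_zero⟩, not_preconnected subset_rfl (hsub1.trans hsub2)⟩⟩
  · have : Continuous (fun x : E 2 => x 0) := by fun_prop
    exact isClosed_le continuous_const this
  · intro x hx y hy a b ha hb _
    have hx' : 0 ≤ x 0 := hx
    have hy' : 0 ≤ y 0 := hy
    show 0 ≤ (a • x + b • y) 0
    have e : (a • x + b • y) 0 = a * x 0 + b * y 0 := by simp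
    rw [e]
    exact add_nonneg (mul_nonneg ha hx') (mul_nonneg hb hy')

end Pool.Agent.Results.MP_e5975b_an.DisconnectedSolutionSets
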